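import Mathlib
import Pool.Agent.Helper240.ZFM.Q5b

open Set Filter Topology Complex

namespace Pool.Agent.Results.MP_8e12aa_an.DEqualsA

/-- `X` is uniformly regular: for some constant `k > 0`, any two points `z, w` of `X` are joined
inside `X` by a rectifiable path whose length (total variation) is at most `k * |z - w|`. -/
def UniformlyRegular (X : Set ℂ) : Prop :=
  ∃ k : ℝ, 0 < k ∧ ∀ z ∈ X, ∀ w ∈ X, ∃ γ : ℝ → ℂ, ContinuousOn γ (Icc 0 1) ∧ γ 0 = z ∧ γ 1 = w ∧
    (∀ t ∈ Icc (0 : ℝ) 1, γ t ∈ X) ∧ eVariationOn γ (Icc 0 1) ≤ ENNReal.ofReal (k * ‖z - w‖)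

/-- The set `D¹(X)`: the functions `f ∈ C(X)` having at every point `a` of `X` the complex
derivative `lim (f z - f a) / (z - a)` (`z → a`, `z ∈ X`, `z ≠ a`), with a derivative that is
continuous on `X`. -/
def D1 (X : Set ℂ) : Set C(X, ℂ) :=
  {f | ∃ g : C(X, ℂ), ∀ a : X,
    Tendsto (fun z : X => (f z - f a) / ((z : ℂ) - (a : ℂ))) (𝓝[≠] a) (𝓝 (g a))}

/-- The set `A¹(X)`: the functions `f ∈ C(X)` which are analytic on the interior of `X` and whose
derivative there extends continuously to `X`. -/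
def A1 (X : Set ℂ) : Set C(X, ℂ) :=
  {f | ∃ F : ℂ → ℂ, (∀ z : X, F z = f z) ∧ AnalyticOnNhd ℂ F (interior X) ∧
    ∃ g : C(X, ℂ), ∀ z : X, (z : ℂ) ∈ interior X → deriv F z = g z}

/-- Path estimate. -/
theorem path_est {Q q : ℂ → ℂ} (hQ : ∀ z, HasStrictDerivAt Q (q z) z) {γ : ℝ → ℂ}
    (hγ : ContinuousOn γ (Icc 0 1)) {L : ℝ} (hL : 0 ≤ L)
    (hvar : eVariationOn γ (Icc 0 1) ≤ ENNReal.ofReal L) {M : ℝ}
    (hM : ∀ t ∈ Icc (0 : ℝ) 1, ‖q (γ t)‖ ≤ M) : ‖Q (γ 1) - Q (γ 0)‖ ≤ M * L := by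
  have hM0 : 0 ≤ M := (norm_nonneg _).trans (hM 0 (by simp))
  suffices H : ∀ ε : ℝ, 0 < ε → ‖Q (γ 1) - Q (γ 0)‖ ≤ (M + ε) * L by
    refine le_of_forall_pos_le_add fun δ hδ => ?_
    have h1 := H (δ / (L + 1)) (by positivity)
    have h2 : δ / (L + 1) * L ≤ δ := by
      rw [div_mul_eq_mul_div, div_le_iff₀ (by positivity)]
      nlinarith
    linarith [add_mul M (δ / (L + 1)) L]
  intro ε hε
  -- local estimate
  have hloc : ∀ t : Icc (0 : ℝ) 1, ∃ U : Set (Icc (0 : ℝ) 1), IsOpen U ∧ t ∈ U ∧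
      ∀ x ∈ U, ∀ y ∈ U, ‖Q (γ x) - Q (γ y)‖ ≤ (M + ε) * ‖γ x - γ y‖ := by
    intro t
    have h1 := (hQ (γ t)).isLittleO
    have h2 := h1.def hε
    rw [Filter.Eventually, mem_nhds_prod_iff] at h2
    obtain ⟨V, hV, W, hW, hVW⟩ := h2
    have hcont : Continuous (fun s : Icc (0 : ℝ) 1 => γ s) :=
      continuousOn_iff_continuous_domRestrict.1 hγ
    obtain ⟨O, hO1, hO2, hO3⟩ := mem_nhds_iff.1 (inter_mem hV hW)
    refine ⟨(fun s : Icc (0 : ℝ) 1 => γ s) ⁻¹' O, hO2.preimage hcont, hO3, ?_⟩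
    intro x hx y hy
    have hx' := hO1 hx
    have hy' := hO1 hy
    have h3 : ((γ x, γ y) : ℂ × ℂ) ∈ V ×ˢ W := ⟨hx'.1, hy'.2⟩
    have h4 := hVW h3
    simp only [Set.mem_ofPred_eq] at h4
    have h5 : ‖Q (γ x) - Q (γ y) - (γ x - γ y) • q (γ t)‖ ≤ ε * ‖γ x - γ y‖ := by
      simpa using h4
    have h6 : ‖(γ x - γ y) • q (γ t)‖ ≤ M * ‖γ x - γ y‖ := by
      rw [norm_smul, mul_comm]
      exact mul_le_mul_of_nonneg_right (hM t t.2) (norm_nonneg _)
    calc ‖Q (γ x) - Q (γ y)‖ = ‖(Q (γ x) - Q (γ y) - (γ x - γ y) • q (γ t))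
          + (γ x - γ y) • q (γ t)‖ := by congr 1; ring
      _ ≤ _ := norm_add_le _ _
      _ ≤ ε * ‖γ x - γ y‖ + M * ‖γ x - γ y‖ := add_le_add h5 h6
      _ = _ := by ring
  choose U hUo hUm hU using hloc
  obtain ⟨t, ht0, htm, ⟨m, hm⟩, htU⟩ := exists_monotone_Icc_subset_open_cover_Icc
    (a := (0 : ℝ)) (b := 1) zero_le_one hUo (fun x _ => mem_iUnion.2 ⟨x, hUm x⟩)
  have hsum : ∀ n, ‖Q (γ (t n)) - Q (γ (t 0))‖ ≤
      (M + ε) * ∑ i ∈ Finset.range n, dist (γ (t (i + 1))) (γ (t i)) := by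
    intro n
    induction n with
    | zero => simp
    | succ n ih =>
      rw [Finset.sum_range_succ, mul_add]
      obtain ⟨i, hi⟩ := htU n
      have h1 := hU i (t (n + 1)) (hi ⟨htm (Nat.le_succ n), le_rfl⟩) (t n)
        (hi ⟨le_rfl, htm (Nat.le_succ n)⟩)
      rw [← dist_eq_norm (γ (t (n + 1)))] at h1
      calc _ = ‖(Q (γ (t (n + 1))) - Q (γ (t n))) + (Q (γ (t n)) - Q (γ (t 0)))‖ := by
            congr 1; ring
        _ ≤ _ := norm_add_le _ _
        _ ≤ _ := by linarith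
  have hvar2 : ∑ i ∈ Finset.range m, dist (γ (t (i + 1))) (γ (t i)) ≤ L := by
    have h1 : ∑ i ∈ Finset.range m, edist (γ (t (i + 1))) (γ (t i)) ≤ ENNReal.ofReal L :=
      (eVariationOn.sum_le (f := γ) (s := Icc 0 1) (u := fun n => (t n : ℝ)) (n := m)
        (fun i j hij => htm hij) (fun i => (t i).2)).trans hvar
    have h2 : ENNReal.ofReal (∑ i ∈ Finset.range m, dist (γ (t (i + 1))) (γ (t i))) ≤
        ENNReal.ofReal L := by
      rw [ENNReal.ofReal_sum_of_nonneg (fun i _ => dist_nonneg)]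
      simpa [edist_dist] using h1
    exact (ENNReal.ofReal_le_ofReal_iff hL).1 h2
  have h3 := hsum m
  rw [hm m le_rfl, ht0] at h3
  exact h3.trans (mul_le_mul_of_nonneg_left hvar2 (by positivity))

/-- Every polynomial has a primitive. -/
theorem exists_primitive (p : Polynomial ℂ) : ∃ Q : Polynomial ℂ, Polynomial.derivative Q = p := by
  induction p using Polynomial.induction_on' with
  | add p q hp hq =>
    obtain ⟨P, hP⟩ := hp
    obtain ⟨Q, hQ⟩ := hq
    exact ⟨P + Q, by simp [hP, hQ]⟩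
  | monomial n a =>
    refine ⟨Polynomial.monomial (n + 1) (a / (n + 1)), ?_⟩
    rw [Polynomial.derivative_monomial]
    have : (n : ℂ) + 1 ≠ 0 := Nat.cast_add_one_ne_zero n
    congr 1
    push_cast
    field_simp

/-- Difference quotients inside `X` and derivatives within `X`. -/
theorem tendsto_iff {X : Set ℂ} {F : ℂ → ℂ} {f : X → ℂ} (hF : ∀ z : X, F z = f z) (a : X) (l : ℂ) :
    Tendsto (fun z : X => (f z - f a) / ((z : ℂ) - (a : ℂ))) (𝓝[≠] a) (𝓝 l) ↔
      HasDerivWithinAt F l X a := by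
  rw [hasDerivWithinAt_iff_tendsto_slope]
  have h1 : 𝓝[X \ {(a : ℂ)}] (a : ℂ) = map ((↑) : X → ℂ) (𝓝[≠] a) := by
    rw [Topology.IsInducing.subtypeVal.map_nhdsWithin_eq]
    congr 1
    ext z
    simp only [Set.mem_sdiff, Set.mem_singleton_iff, Set.mem_image, Set.mem_compl_iff]
    constructor
    · rintro ⟨h1, h2⟩
      exact ⟨⟨z, h1⟩, fun h => h2 (by rw [← h]), rfl⟩
    · rintro ⟨x, hx, rfl⟩
      exact ⟨x.2, fun h => hx (Subtype.ext h)⟩
  rw [h1, tendsto_map'_iff]
  refine tendsto_congr fun z => ?_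
  simp only [Function.comp, slope_def_field, hF]

/-- The estimate given by uniform regularity. -/
theorem reg_est {X : Set ℂ} {k : ℝ} (hk : 0 < k)
    (hpath : ∀ z ∈ X, ∀ w ∈ X, ∃ γ : ℝ → ℂ, ContinuousOn γ (Icc 0 1) ∧ γ 0 = z ∧ γ 1 = w ∧
      (∀ t ∈ Icc (0 : ℝ) 1, γ t ∈ X) ∧ eVariationOn γ (Icc 0 1) ≤ ENNReal.ofReal (k * ‖z - w‖))
    {Q q : ℂ → ℂ} (hQ : ∀ z, HasStrictDerivAt Q (q z) z) {z w : ℂ} (hz : z ∈ X) (hw : w ∈ X)
    {M : ℝ} (hM : ∀ x ∈ X, ‖x - z‖ ≤ k * ‖z - w‖ → ‖q x‖ ≤ M) :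
    ‖Q w - Q z‖ ≤ M * (k * ‖z - w‖) := by
  obtain ⟨γ, hγ, h0, h1, hin, hvar⟩ := hpath z hz w hw
  have hL : 0 ≤ k * ‖z - w‖ := by positivity
  rw [← h0, ← h1]
  rw [← h0, ← h1] at hL hvar
  refine path_est hQ hγ hL hvar fun t ht => hM _ (hin t ht) ?_
  have h2 : edist (γ t) (γ 0) ≤ ENNReal.ofReal (k * ‖γ 0 - γ 1‖) :=
    (eVariationOn.edist_le _ ht (by simp)).trans hvar
  rw [edist_dist, ENNReal.ofReal_le_ofReal_iff hL, dist_eq_norm, h0, h1] at h2
  exact h2

theorem D1_subset_A1 (X : Set ℂ) : D1 X ⊆ A1 X := by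
  classical
  rintro f ⟨g, hg⟩
  let F : ℂ → ℂ := fun z => if h : z ∈ X then f ⟨z, h⟩ else 0
  have hF : ∀ z : X, F z = f z := fun z => by simp [F]
  have hd : ∀ a : X, (a : ℂ) ∈ interior X → HasDerivAt F (g a) a := fun a ha =>
    ((tendsto_iff hF a (g a)).1 (hg a)).hasDerivAt (mem_interior_iff_mem_nhds.1 ha)
  refine ⟨F, hF, ?_, g, fun z hz => (hd z hz).deriv⟩
  refine DifferentiableOn.analyticOnNhd (fun z hz => ?_) isOpen_interior
  exact (hd ⟨z, interior_subset hz⟩ hz).differentiableAt.differentiableWithinAt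

/-- For every uniformly regular, polynomially convex compact plane set `X` whose interior is
connected and dense in `X`, one has `D¹(X) = A¹(X)`. -/
theorem result (X : Set ℂ) (_hne : X.Nonempty) (hX : IsCompact X) (hreg : UniformlyRegular X)
    (hpc : IsConnected Xᶜ) (hconn : IsConnected (interior X)) (hdense : X ⊆ closure (interior X)) :
    D1 X = A1 X := by
  classical
  refine Set.Subset.antisymm (D1_subset_A1 X) ?_
  rintro f ⟨F0, hF0, han, g, hg⟩
  obtain ⟨k, hk, hpath⟩ := hreg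
  obtain ⟨z0, hz0⟩ := hconn.nonempty
  have hz0X : z0 ∈ X := interior_subset hz0
  let G : ℂ → ℂ := fun z => if h : z ∈ X then g ⟨z, h⟩ else 0
  have hG : ∀ z : X, G z = g z := fun z => by simp [G]
  have hGc : ContinuousOn G X := by
    rw [continuousOn_iff_continuous_domRestrict]
    have : X.domRestrict G = g := by
      ext z
      exact hG z
    rw [this]
    exact g.continuous
  have hGd : DifferentiableOn ℂ G (interior X) := by
    refine han.deriv.differentiableOn.congr fun z hz => ?_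
    rw [hg ⟨z, interior_subset hz⟩ hz]
    exact hG ⟨z, interior_subset hz⟩
  have hmg : ∀ n : ℕ, ∃ p : Polynomial ℂ, ∀ z ∈ X, ‖p.eval z - G z‖ < 1 / ((n : ℝ) + 1) := fun n =>
    ZFM.mergelyan hX hpc G hGc hGd _ (by positivity)
  choose p hp using hmg
  choose P hP using fun n => exists_primitive (p n)
  let R : ℕ → Polynomial ℂ := fun n => P n + Polynomial.C (f ⟨z0, hz0X⟩ - (P n).eval z0)
  have hR : ∀ n z, HasStrictDerivAt (fun z => (R n).eval z) ((p n).eval z) z := by
    intro n z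
    have h1 := (R n).hasStrictDerivAt z
    have h2 : Polynomial.derivative (R n) = p n := by simp [R, hP]
    rwa [h2] at h1
  have hRz0 : ∀ n, (R n).eval z0 = f ⟨z0, hz0X⟩ := fun n => by simp [R]
  -- pointwise convergence
  have hconv : ∀ w ∈ X, ∃ l, Tendsto (fun n => (R n).eval w) atTop (𝓝 l) := by
    intro w hw
    refine cauchySeq_tendsto_of_complete ?_
    refine cauchySeq_of_le_tendsto_0 (fun N : ℕ => 2 / ((N : ℝ) + 1) * (k * ‖z0 - w‖)) ?_ ?_
    · intro n m N hn hm
      have h1 := reg_est hk hpath (Q := fun z => (R n).eval z - (R m).eval z)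
        (q := fun z => (p n).eval z - (p m).eval z) (fun z => (hR n z).sub (hR m z)) hz0X hw
        (M := 2 / ((N : ℝ) + 1)) (fun x hx _ => by
          have e1 := hp n x hx
          have e2 := hp m x hx
          have e3 : 1 / ((n : ℝ) + 1) ≤ 1 / ((N : ℝ) + 1) := by
            apply one_div_le_one_div_of_le (by positivity)
            have : (N : ℝ) ≤ n := by exact_mod_cast hn
            linarith
          have e4 : 1 / ((m : ℝ) + 1) ≤ 1 / ((N : ℝ) + 1) := by
            apply one_div_le_one_div_of_le (by positivity)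
            have : (N : ℝ) ≤ m := by exact_mod_cast hm
            linarith
          calc ‖(p n).eval x - (p m).eval x‖ = ‖((p n).eval x - G x) - ((p m).eval x - G x)‖ := by
                congr 1; ring
            _ ≤ _ := norm_sub_le _ _
            _ ≤ 1 / ((N : ℝ) + 1) + 1 / ((N : ℝ) + 1) := by linarith
            _ = _ := by ring)
      rw [dist_eq_norm]
      simp only [hRz0, sub_self, sub_zero] at h1
      exact h1
    · have h1 : Tendsto (fun N : ℕ => 2 / ((N : ℝ) + 1)) atTop (𝓝 0) := by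
        have := (tendsto_one_div_add_atTop_nhds_zero_nat (𝕜 := ℝ)).const_mul 2
        simpa [div_eq_mul_inv] using this
      simpa using h1.mul_const (k * ‖z0 - w‖)
  choose! F hF using hconv
  have hFz0 : F z0 = f ⟨z0, hz0X⟩ := by
    refine tendsto_nhds_unique (hF z0 hz0X) ?_
    simp only [hRz0]
    exact tendsto_const_nhds
  -- main estimate
  have hest : ∀ a ∈ X, ∀ w ∈ X, ∀ M : ℝ, (∀ x ∈ X, ‖x - a‖ ≤ k * ‖a - w‖ → ‖G x - G a‖ ≤ M) →
      ‖F w - F a - (w - a) * G a‖ ≤ M * (k * ‖a - w‖) := by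
    intro a ha w hw M hM
    have h1 : ∀ n : ℕ, ‖(R n).eval w - (R n).eval a - (w - a) * G a‖ ≤
        (1 / ((n : ℝ) + 1) + M) * (k * ‖a - w‖) := by
      intro n
      have h2 := reg_est hk hpath (Q := fun z => (R n).eval z - z * G a)
        (q := fun z => (p n).eval z - G a) (fun z => by
          have := (hR n z).sub ((hasStrictDerivAt_id z).mul_const (G a))
          rw [one_mul] at this
          exact this) ha hw (M := 1 / ((n : ℝ) + 1) + M) (fun x hx hxa => by
          calc ‖(p n).eval x - G a‖ = ‖((p n).eval x - G x) + (G x - G a)‖ := by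
                congr 1; ring
            _ ≤ _ := norm_add_le _ _
            _ ≤ _ := add_le_add (hp n x hx).le (hM x hx hxa))
      refine le_trans (le_of_eq ?_) h2
      congr 1
      ring
    have h3 : Tendsto (fun n : ℕ => ‖(R n).eval w - (R n).eval a - (w - a) * G a‖) atTop
        (𝓝 ‖F w - F a - (w - a) * G a‖) :=
      (((hF w hw).sub (hF a ha)).sub_const _).norm
    have h4 : Tendsto (fun n : ℕ => (1 / ((n : ℝ) + 1) + M) * (k * ‖a - w‖)) atTop
        (𝓝 ((0 + M) * (k * ‖a - w‖))) :=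
      ((tendsto_one_div_add_atTop_nhds_zero_nat (𝕜 := ℝ)).add_const M).mul_const _
    have := le_of_tendsto_of_tendsto' h3 h4 h1
    simpa using this
  have hder : ∀ a ∈ X, HasDerivWithinAt F (G a) X a := by
    intro a ha
    rw [hasDerivWithinAt_iff_isLittleO, Asymptotics.isLittleO_iff]
    intro c hc
    have h1 := hGc a ha
    rw [Metric.continuousWithinAt_iff] at h1
    obtain ⟨δ, hδ, h2⟩ := h1 (c / k) (by positivity)
    filter_upwards [self_mem_nhdsWithin, mem_nhdsWithin_of_mem_nhds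
      (Metric.ball_mem_nhds a (ε := δ / k) (by positivity))] with w hw hwb
    rw [Metric.mem_ball, dist_eq_norm, lt_div_iff₀ hk] at hwb
    have h3 := hest a ha w hw (c / k) (fun x hx hxa => by
      have : dist x a < δ := by
        rw [dist_eq_norm]
        refine lt_of_le_of_lt hxa ?_
        rw [norm_sub_rev a w, mul_comm]
        exact hwb
      have := h2 hx this
      rw [dist_eq_norm] at this
      exact this.le)
    rw [smul_eq_mul]
    refine h3.trans (le_of_eq ?_)
    rw [norm_sub_rev a w]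
    field_simp
  -- identification on the interior
  have hint : Set.EqOn F F0 (interior X) := by
    have h1 : ∀ z ∈ interior X, HasDerivAt (fun z => F z - F0 z) 0 z := by
      intro z hz
      have e1 := (hder z (interior_subset hz)).hasDerivAt (mem_interior_iff_mem_nhds.1 hz)
      have e2 := (han z hz).differentiableAt.hasDerivAt
      rw [hg ⟨z, interior_subset hz⟩ hz] at e2
      have e3 := e1.sub e2
      rw [hG ⟨z, interior_subset hz⟩, sub_self] at e3
      exact e3
    intro z hz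
    have h2 := isOpen_interior.is_const_of_deriv_eq_zero (f := fun z => F z - F0 z)
      hconn.isPreconnected (fun z hz => (h1 z hz).differentiableAt.differentiableWithinAt)
      (fun z hz => (h1 z hz).deriv) hz hz0
    have h3 : F z0 - F0 z0 = 0 := by rw [hFz0, hF0 ⟨z0, hz0X⟩, sub_self]
    have h4 : F z - F0 z = 0 := h2.trans h3
    exact sub_eq_zero.1 h4
  have hF0c : ContinuousOn F0 X := by
    rw [continuousOn_iff_continuous_domRestrict]
    have : X.domRestrict F0 = f := by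
      ext z
      exact hF0 z
    rw [this]
    exact f.continuous
  have hEq : Set.EqOn F F0 X := hint.of_subset_closure
    (fun a ha => (hder a ha).continuousWithinAt) hF0c interior_subset hdense
  refine ⟨g, fun a => ?_⟩
  rw [tendsto_iff (F := F) (fun z => (hEq z.2).trans (hF0 z)) a, ← hG a]
  exact hder a a.2

end Pool.Agent.Results.MP_8e12aa_an.DEqualsA
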